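import Pool.Agent.Y148.OD.Stm2

/-! Project OD: specialisation of families by the Newton polygon. -/

set_option autoImplicit false

namespace Pool.Agent.Y710.OD

open MvPolynomial Pool.Agent.Y148.OD

section prim

variable {Ω : Type} [Field Ω] {τ : Type} {K : Subfield Ω} (O : ValuationSubring K) (θ : O →+* Ω)

/-- the primitive part of a polynomial -/
theorem exists_prim (q : MvPolynomial τ K) : ∃ (a : K) (h : MvPolynomial τ O),
    MvPolynomial.map θ h ≠ 0 ∧ q = C a * MvPolynomial.map (algebraMap O K) h := by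
  classical
  by_cases hq : q = 0
  · exact ⟨0, 1, by rw [map_one]; exact one_ne_zero, by rw [hq, map_zero, zero_mul]⟩
  · obtain ⟨m0, hm0, hmax⟩ := Finset.exists_max_image q.support (fun m => O.valuation (coeff m q))
      (MvPolynomial.support_nonempty.2 hq)
    set a : K := coeff m0 q with ha
    have ha0 : a ≠ 0 := MvPolynomial.mem_support_iff.1 hm0
    have hva : O.valuation a ≠ 0 := (Valuation.ne_zero_iff _).2 ha0
    have h1 : ∀ m, ∃ u : O, m ∈ q.support → (u : K) = coeff m q / a := by
      intro m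
      by_cases hm : m ∈ q.support
      · have h2 : coeff m q / a ∈ O := by
          rw [← O.valuation_le_one_iff, map_div₀]
          exact div_le_one_of_le₀ (hmax m hm) zero_le
        exact ⟨⟨_, h2⟩, fun _ => rfl⟩
      · exact ⟨0, fun h => absurd h hm⟩
    choose u hu using h1
    refine ⟨a, ∑ m ∈ q.support, monomial m (u m), ?_, ?_⟩
    · intro h0
      have h2 := congrArg (coeff m0) h0
      rw [map_sum, coeff_sum, Finset.sum_eq_single m0] at h2
      · rw [map_monomial, coeff_monomial, if_pos rfl, coeff_zero] at h2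
        have h3 : u m0 = 1 := by
          apply Subtype.ext
          rw [hu m0 hm0, ← ha, div_self ha0]
          rfl
        rw [h3, map_one] at h2
        exact one_ne_zero h2
      · intro m _ hm
        rw [map_monomial, coeff_monomial, if_neg hm]
      · intro h
        exact absurd hm0 h
    · rw [map_sum, Finset.mul_sum]
      conv_lhs => rw [q.as_sum]
      refine Finset.sum_congr rfl fun m hm => ?_
      rw [map_monomial, C_mul_monomial]
      congr 1
      show coeff m q = a * (u m : K)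
      rw [hu m hm, mul_div_cancel₀ _ ha0]

/-- the reductions of two primitive polynomials which are proportional are proportional -/
theorem prim_unique {f h : MvPolynomial τ O}
    (hf : MvPolynomial.map θ f ≠ 0) (hh : MvPolynomial.map θ h ≠ 0) {r a : K} (hr : r ≠ 0)
    (e : C r * MvPolynomial.map (algebraMap O K) f = C a * MvPolynomial.map (algebraMap O K) h) :
    a ≠ 0 ∧ ∃ d : Ω, d ≠ 0 ∧ MvPolynomial.map θ f = C d * MvPolynomial.map θ h := by
  have hinj : Function.Injective (MvPolynomial.map (σ := τ) (algebraMap O K)) :=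
    MvPolynomial.map_injective _ (Subtype.coe_injective)
  have hf0 : f ≠ 0 := fun h' => hf (by rw [h', map_zero])
  have ha : a ≠ 0 := by
    rintro rfl
    rw [map_zero, zero_mul] at e
    rcases mul_eq_zero.1 e with h1 | h1
    · exact hr (C_injective _ _ (by rw [h1, map_zero]))
    · exact hf0 (hinj (by rw [h1, map_zero]))
  refine ⟨ha, ?_⟩
  rcases O.mem_or_inv_mem (a / r) with hu | hu
  · have h1 : f = C (⟨a / r, hu⟩ : O) * h := by
      apply hinj
      rw [map_mul, map_C]
      show _ = C (a / r) * _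
      have h2 : C r⁻¹ * (C r * MvPolynomial.map (algebraMap O K) f) =
          C r⁻¹ * (C a * MvPolynomial.map (algebraMap O K) h) := by rw [e]
      rw [← mul_assoc, ← C_mul, inv_mul_cancel₀ hr, C_1, one_mul, ← mul_assoc, ← C_mul] at h2
      rw [h2, div_eq_inv_mul]
    have h3 : MvPolynomial.map θ f = C (θ ⟨a / r, hu⟩) * MvPolynomial.map θ h := by
      rw [h1, map_mul, map_C]
    refine ⟨_, fun h0 => hf ?_, h3⟩
    rw [h3, h0, map_zero, zero_mul]
  · rw [inv_div] at hu
    have h1 : h = C (⟨r / a, hu⟩ : O) * f := by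
      apply hinj
      rw [map_mul, map_C]
      show _ = C (r / a) * _
      have h2 : C a⁻¹ * (C r * MvPolynomial.map (algebraMap O K) f) =
          C a⁻¹ * (C a * MvPolynomial.map (algebraMap O K) h) := by rw [e]
      rw [← mul_assoc (C a⁻¹) (C a), ← C_mul, inv_mul_cancel₀ ha, C_1, one_mul, ← mul_assoc, ← C_mul] at h2
      rw [← h2, div_eq_inv_mul]
    have h3 : MvPolynomial.map θ h = C (θ ⟨r / a, hu⟩) * MvPolynomial.map θ f := by
      rw [h1, map_mul, map_C]
    have h4 : θ ⟨r / a, hu⟩ ≠ 0 := fun h0 => hh (by rw [h3, h0, map_zero, zero_mul])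
    refine ⟨(θ ⟨r / a, hu⟩)⁻¹, inv_ne_zero h4, ?_⟩
    rw [h3, ← mul_assoc, ← C_mul, inv_mul_cancel₀ h4, C_1, one_mul]

end prim

section form

variable {Ω : Type} [Field Ω] {τ : Type} [Fintype τ] {P : Type} {ℓ : P → MvPolynomial τ Ω} {n : ℕ}

theorem isCyc_smul {f : MvPolynomial τ Ω} (h : IsCyc ℓ n f) (d : Ω) : IsCyc ℓ n (C d * f) := by
  obtain ⟨c, z, rfl⟩ := h
  exact ⟨d * c, z, by rw [C_mul, mul_assoc]⟩

theorem isCyc_of_smul {f : MvPolynomial τ Ω} {d : Ω} (hd : d ≠ 0) (h : IsCyc ℓ n (C d * f)) :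
    IsCyc ℓ n f := by
  have := isCyc_smul h d⁻¹
  rwa [← mul_assoc, ← C_mul, inv_mul_cancel₀ hd, C_1, one_mul] at this

theorem isCyc_rep {f : MvPolynomial τ Ω} (h : IsCyc ℓ n f) (hf : f ≠ 0) :
    ∃ (c : Ω) (z : Fin n → P), c ≠ 0 ∧ f = C c * chow ℓ z := by
  obtain ⟨c, z, rfl⟩ := h
  refine ⟨c, z, ?_, rfl⟩
  rintro rfl
  exact hf (by rw [map_zero, zero_mul])

theorem rat_gen {x y : Fin n → P} (h : RatStep ℓ n x y) :
    ∑ i, FreeAbelianGroup.of (x i) - ∑ i, FreeAbelianGroup.of (y i) ∈ ratSub ℓ :=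
  AddSubgroup.subset_closure ⟨n, x, y, h, rfl⟩

/-- two representations of the same form are rationally equivalent -/
theorem rat_self {x y : Fin n → P} {c c' : Ω} (hc : c ≠ 0) (hc' : c' ≠ 0)
    (h : C c * chow ℓ x = C c' * chow ℓ y) :
    ∑ i, FreeAbelianGroup.of (x i) - ∑ i, FreeAbelianGroup.of (y i) ∈ ratSub ℓ := by
  refine rat_gen ⟨c, c', hc, hc', Polynomial.C (C c * chow ℓ x), ?_, ?_, fun s => ?_⟩
  · rw [Polynomial.coeff_C_zero]
  · rw [Polynomial.leadingCoeff_C, h]
  · rw [Polynomial.eval_C]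
    exact ⟨c, x, rfl⟩

theorem formEq_refl {f : MvPolynomial τ Ω} (h : IsCyc ℓ n f) (hf : f ≠ 0) : FormEq ℓ n f f := by
  obtain ⟨c, z, hc, e⟩ := isCyc_rep h hf
  exact ⟨c, c, z, z, hc, hc, e, e, by rw [sub_self]; exact (ratSub ℓ).zero_mem⟩

theorem formEq_trans {f g h : MvPolynomial τ Ω} (h1 : FormEq ℓ n f g) (h2 : FormEq ℓ n g h) :
    FormEq ℓ n f h := by
  obtain ⟨c, c', x, y, hc, hc', e1, e2, r1⟩ := h1
  obtain ⟨d, d', y', z, hd, hd', e3, e4, r2⟩ := h2
  refine ⟨c, d', x, z, hc, hd', e1, e4, ?_⟩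
  have r3 := rat_self (ℓ := ℓ) hc' hd (e2.symm.trans e3)
  have := (ratSub ℓ).add_mem ((ratSub ℓ).add_mem r1 r3) r2
  rwa [sub_add_sub_cancel, sub_add_sub_cancel] at this

theorem formEq_smul {f g : MvPolynomial τ Ω} {d d' : Ω} (hd : d ≠ 0) (hd' : d' ≠ 0)
    (h : FormEq ℓ n f g) : FormEq ℓ n (C d * f) (C d' * g) := by
  obtain ⟨c, c', x, y, hc, hc', rfl, rfl, r⟩ := h
  exact ⟨d * c, d' * c', x, y, mul_ne_zero hd hc, mul_ne_zero hd' hc', by rw [C_mul, mul_assoc],
    by rw [C_mul, mul_assoc], r⟩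

theorem formEq_of_link {f g : MvPolynomial τ Ω} (hf : f ≠ 0) (hg : g ≠ 0) (h1 : IsCyc ℓ n f)
    (h2 : IsCyc ℓ n g) (h : Link ℓ n f g) : FormEq ℓ n f g := by
  obtain ⟨c, x, hc, e1⟩ := isCyc_rep h1 hf
  obtain ⟨c', y, hc', e2⟩ := isCyc_rep h2 hg
  refine ⟨c, c', x, y, hc, hc', e1, e2, rat_gen ⟨c, c', hc, hc', ?_⟩⟩
  rw [← e1, ← e2]
  exact h

end form

theorem chain_of : StmNewton → StmReduce → StmChain := by
  intro hN hR Ω _ _ _ τ _ V k hS hcone K O θ _ hKac hθ hk n F hF f g hf hg hf0 hg0
  classical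
  obtain ⟨r, hr, hfr⟩ := hf0
  obtain ⟨r', hr', hgr⟩ := hg0
  have hprim := fun i => exists_prim O θ (F.coeff i)
  choose a h hh hah using hprim
  set φ : O →+* Ω := (algebraMap K Ω).comp (algebraMap O K) with hφ
  set v := O.valuation with hv
  set w : ℕ → O.ValueGroup := fun i => v (a i) with hw
  set e := F.natDegree with he
  have hwne : ∀ i, w i ≠ 0 ↔ a i ≠ 0 := fun i => Valuation.ne_zero_iff _
  obtain ⟨ha0, d, hd, hd'⟩ := prim_unique O θ hf (hh 0) hr (hfr.symm.trans (hah 0))
  obtain ⟨hae, d2, hd2, hd2'⟩ := prim_unique O θ hg (hh e) hr' (hgr.symm.trans (hah e))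
  have hai : ∀ i, e < i → a i = 0 := by
    intro i hi
    have h1 := hah i
    rw [Polynomial.coeff_eq_zero_of_natDegree_lt hi] at h1
    by_contra hne
    rcases mul_eq_zero.1 h1.symm with h2 | h2
    · exact hne (C_injective _ _ (by rw [h2, map_zero]))
    · have h3 : h i = 0 := MvPolynomial.map_injective _ (Subtype.coe_injective) (by
        rw [map_zero]; exact h2)
      exact hh i (by rw [h3, map_zero])
  have hch := hN K O.ValueGroup v w e (fun i => ⟨a i, rfl⟩) ((hwne 0).2 ha0) ((hwne e).2 hae)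
    (fun i hi => by rw [hw]; show v (a i) = 0; rw [hai i hi, map_zero])
  -- the values of `F`
  have hFval : ∀ s : Ω, (F.map (MvPolynomial.map (algebraMap K Ω))).eval (C s) =
      ∑ i ∈ Finset.range (e + 1), C (a i : Ω) * MvPolynomial.map φ (h i) * (C s) ^ i := by
    intro s
    rw [Polynomial.eval_map, Polynomial.eval₂_eq_sum_range]
    refine Finset.sum_congr rfl fun i _ => ?_
    congr 1
    rw [hah i, map_mul, map_C, MvPolynomial.map_map]
    rfl
  -- base case
  have hbase : FormEq (vlin V) n (MvPolynomial.map θ (h 0)) (MvPolynomial.map θ (h 0)) := by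
    have hc0 : IsCyc (vlin V) n (MvPolynomial.map φ (h 0)) := by
      have h1 := hF 0
      rw [hFval, Finset.sum_eq_single 0] at h1
      · rw [pow_zero, mul_one] at h1
        exact isCyc_of_smul (fun h2 => ha0 (Subtype.ext h2)) h1
      · intro i _ hi
        rw [map_zero, zero_pow hi, mul_zero]
      · intro h2
        exact absurd (Finset.mem_range.2 (Nat.succ_pos e)) h2
    have h2 := hR Ω τ V k hS hcone K O θ inferInstance hk n (Polynomial.C (h 0)) (fun s => by
      rw [Polynomial.map_C, Polynomial.eval_C]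
      exact hc0) (Polynomial.C (MvPolynomial.map θ (h 0))) (by rw [Polynomial.map_C])
      (fun h3 => hh 0 (Polynomial.C_eq_zero.1 h3))
    rw [Polynomial.leadingCoeff_C] at h2
    exact formEq_refl h2.1 (hh 0)
  have hstep : ∀ j j', Step v w j j' →
      FormEq (vlin V) n (MvPolynomial.map θ (h j)) (MvPolynomial.map θ (h j')) := by
    rintro j j' ⟨hjj, c, hc, hcj, hwj, hle, hlt⟩
    have haj : a j ≠ 0 := (hwne j).1 hwj
    have hvc : v c ≠ 0 := (Valuation.ne_zero_iff _).2 hc
    have hwj' : w j' ≠ 0 := by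
      intro h0
      rw [h0, mul_zero] at hcj
      exact mul_ne_zero (pow_ne_zero _ hvc) hwj hcj
    have haj' : a j' ≠ 0 := (hwne j').1 hwj'
    have hje' : j' ≤ e := by
      by_contra h0
      exact haj' (hai j' (not_le.1 h0))
    set b : K := (c ^ j * a j)⁻¹ with hb
    have hb0 : c ^ j * a j ≠ 0 := mul_ne_zero (pow_ne_zero _ hc) haj
    have hvb : v (c ^ j * a j) = v c ^ j * w j := by rw [map_mul, map_pow]
    have hvb0 : v c ^ j * w j ≠ 0 := mul_ne_zero (pow_ne_zero _ hvc) hwj
    have hval : ∀ i, v (b * c ^ i * a i) = (v c ^ j * w j)⁻¹ * (v c ^ i * w i) := by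
      intro i
      rw [map_mul, map_mul, map_pow, hb, map_inv₀, hvb, mul_assoc]
    have hmem : ∀ i, b * c ^ i * a i ∈ O := by
      intro i
      rw [← O.valuation_le_one_iff, ← hv, hval]
      have h1 : (v c ^ j * w j)⁻¹ * (v c ^ i * w i) ≤ (v c ^ j * w j)⁻¹ * (v c ^ j * w j) :=
        mul_le_mul_of_nonneg_left (hle i) zero_le
      rwa [inv_mul_cancel₀ hvb0] at h1
    set u : ℕ → O := fun i => ⟨b * c ^ i * a i, hmem i⟩ with hu
    have huj : u j = 1 := by
      apply Subtype.ext
      show b * c ^ j * a j = 1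
      rw [mul_assoc, hb, inv_mul_cancel₀ hb0]
    have huj' : θ (u j') ≠ 0 := by
      rw [Ne, hθ, not_not, O.valuation_eq_one_iff]
      show v (b * c ^ j' * a j') = 1
      rw [hval, ← hcj, inv_mul_cancel₀ hvb0]
    have hui : ∀ i, i < j ∨ j' < i → θ (u i) = 0 := by
      intro i hi
      rw [hθ, O.valuation_eq_one_iff]
      show ¬ v (b * c ^ i * a i) = 1
      rw [hval]
      intro h1
      have h2 := hlt i hi
      have h3 : v c ^ i * w i = v c ^ j * w j := by
        have := congrArg (fun z => (v c ^ j * w j) * z) h1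
        simpa only [mul_inv_cancel_left₀ hvb0, mul_one] using this
      exact absurd h3 h2.ne
    set G : Polynomial (MvPolynomial τ O) :=
      ∑ i ∈ Finset.range (e + 1), Polynomial.monomial i (C (u i) * h i) with hG
    have hGc : ∀ i, G.coeff i = if i ≤ e then C (u i) * h i else 0 := by
      intro i
      rw [hG, Polynomial.finsetSum_coeff]
      by_cases hi : i ≤ e
      · rw [if_pos hi, Finset.sum_eq_single i]
        · rw [Polynomial.coeff_monomial, if_pos rfl]
        · intro l _ hl
          rw [Polynomial.coeff_monomial, if_neg hl]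
        · intro h0
          exact absurd (Finset.mem_range.2 (Nat.lt_succ_of_le hi)) h0
      · rw [if_neg hi]
        refine Finset.sum_eq_zero fun l hl => ?_
        rw [Polynomial.coeff_monomial, if_neg]
        rintro rfl
        exact hi (Nat.lt_succ_iff.1 (Finset.mem_range.1 hl))
    have hGval : ∀ s : Ω, IsCyc (vlin V) n ((G.map (MvPolynomial.map φ)).eval (C s)) := by
      intro s
      have h1 := isCyc_smul (hF ((c : Ω) * s)) (b : Ω)
      have h2 : (G.map (MvPolynomial.map φ)).eval (C s) =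
          C (b : Ω) * (F.map (MvPolynomial.map (algebraMap K Ω))).eval (C ((c : Ω) * s)) := by
        rw [hFval, hG, Polynomial.map_sum, Polynomial.eval_finsetSum, Finset.mul_sum]
        refine Finset.sum_congr rfl fun i _ => ?_
        rw [Polynomial.map_monomial, Polynomial.eval_monomial]
        show MvPolynomial.map φ (C (u i) * h i) * C s ^ i = _
        rw [map_mul, map_C]
        have h3 : φ (u i) = (b : Ω) * (c : Ω) ^ i * (a i : Ω) := rfl
        rw [h3, C_mul, C_mul, C_pow, C_mul, mul_pow]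
        ring
      rw [h2]
      exact h1
    set G' : Polynomial (MvPolynomial τ Ω) := G.map (MvPolynomial.map θ) with hG'
    have hG'c : ∀ i, G'.coeff i = if i ≤ e then C (θ (u i)) * MvPolynomial.map θ (h i) else 0 := by
      intro i
      rw [hG', Polynomial.coeff_map, hGc]
      show MvPolynomial.map θ _ = _
      split_ifs
      · rw [map_mul, map_C]
      · rw [map_zero]
    have hcj0 : G'.coeff j = MvPolynomial.map θ (h j) := by
      rw [hG'c, if_pos (hjj.le.trans hje'), huj, map_one, C_1, one_mul]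
    have hcj1 : G'.coeff j' = C (θ (u j')) * MvPolynomial.map θ (h j') := by
      rw [hG'c, if_pos hje']
    have hne0 : G'.coeff j ≠ 0 := by rw [hcj0]; exact hh j
    have hne1 : G'.coeff j' ≠ 0 := by
      rw [hcj1]
      exact mul_ne_zero (fun h0 => huj' (C_injective _ _ (by rw [h0, map_zero]))) (hh j')
    have hG'0 : G' ≠ 0 := fun h0 => hne0 (by rw [h0, Polynomial.coeff_zero])
    have hz : ∀ i, i < j ∨ j' < i → G'.coeff i = 0 := by
      intro i hi
      rw [hG'c]
      split_ifs
      · rw [hui i hi, map_zero, zero_mul]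
      · rfl
    have hdeg : G'.natDegree = j' := le_antisymm
      (Polynomial.natDegree_le_iff_coeff_eq_zero.2 fun i hi => hz i (Or.inr hi))
      (Polynomial.le_natDegree_of_ne_zero hne1)
    have htr : G'.natTrailingDegree = j := le_antisymm
      (Polynomial.natTrailingDegree_le_of_ne_zero hne0)
      (Polynomial.le_natTrailingDegree hG'0 fun i hi => hz i (Or.inl hi))
    have hlc : G'.leadingCoeff = C (θ (u j')) * MvPolynomial.map θ (h j') := by
      rw [Polynomial.leadingCoeff, hdeg, hcj1]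
    have htc : G'.trailingCoeff = MvPolynomial.map θ (h j) := by
      rw [Polynomial.trailingCoeff, htr, hcj0]
    obtain ⟨k1, k2, k3⟩ := hR Ω τ V k hS hcone K O θ inferInstance hk n G hGval G' hG' hG'0
    have k4 := formEq_of_link (by rw [htc]; exact hh j) (by rw [hlc, ← hcj1]; exact hne1) k2 k1 k3
    rw [htc, hlc] at k4
    have k5 := formEq_smul one_ne_zero (inv_ne_zero huj') k4
    rwa [C_1, one_mul, ← mul_assoc, ← C_mul, inv_mul_cancel₀ huj', C_1, one_mul] at k5
  have hall : ∀ j, Relation.ReflTransGen (Step v w) 0 j →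
      FormEq (vlin V) n (MvPolynomial.map θ (h 0)) (MvPolynomial.map θ (h j)) := by
    intro j hj
    induction hj with
    | refl => exact hbase
    | tail _ h2 ih => exact formEq_trans ih (hstep _ _ h2)
  rw [hd', hd2']
  exact formEq_smul hd hd2 (hall e hch)

end Pool.Agent.Y710.OD
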